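import Mathlib
import Pool.Agent.N646.RG.All

/-!
# Differences of primes of the right order in every window, or all small even numbers

Let `π_h(y)` be the number of the primes `p ≤ y` such that `p + h` is prime.

Theorem. For all `ε, λ > 0` there is `κ > 0` such that for all large `x` and ALL `L` with
`λ log x ≤ L ≤ x / 8` at least one of the following holds.

(a) EVERY interval `[u, u + L)` with `0 ≤ u ≤ x` contains at least `(5 / 27 - ε) (L / 2)` even numbers `h`
with `π_h(3 x) ≥ κ x / log² x`.

(b) At least `(1 - ε) (L / 40)` of the even numbers `h ≤ L / 20` (all but the proportion `ε` of them) satisfy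
`π_h(3 x) ≥ κ x / log² x`.

So for `L = λ log x`, any small multiple of the average distance of consecutive primes: either at least
`5 / 27 - ε` of the even numbers in EVERY interval of length `L` up to `x`, or almost all the even numbers in
the initial interval `[1, L / 20]`, are differences of two primes, and of the expected number of pairs.

Proof. As for `MP_dd84fd_nt.GoldbachOrPrimePairs`, with the forms `n`, `n + r`, `n + m`, `n + m + r`:
(1) the coloured Maynard-Tao theorem with the constant `18 / 5` and the right order of magnitude (starting
files), moment bounds for integers without small prime factors in intervals of length `log x`, Cauchy-Schwarz;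
(2) sampling, a hypergraph box lemma and containers give sets of shifts of relative densities with sum
`> 10 / 9 - ε` almost all of whose pairs have the right order; (3) if (b) fails in the class `r` modulo `M`, the
sets of `n, n + r` and of `n + m, n + m + r` are both present, and Pollard's inequality applies.

Lean parts by helpers 646, 434, 31, 123, 316, 700 (and 592, 692, 415, 591, 595, project RQ).
-/

set_option autoImplicit false

namespace Pool.Agent.Results.MP_70e905_nt.DifferencesInEveryWindow

open Filter Finset

/-- the number of the primes `p ≤ y` such that `p + h` is prime -/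
def primePairs (y h : ℕ) : ℕ :=
  ((Icc 1 y).filter (fun p => p.Prime ∧ (p + h).Prime)).card

open Classical in
/-- **A positive proportion of the even numbers of every window, or almost all small even numbers, are
differences of the expected number of prime pairs.** -/
theorem result : ∀ ε lam : ℝ, 0 < ε → 0 < lam → ∃ κ : ℝ, 0 < κ ∧ ∀ᶠ x : ℕ in atTop,
    ∀ L : ℕ, lam * Real.log x ≤ L → 8 * L ≤ x →
      (∀ u : ℕ, u ≤ x → (5 / 27 - ε) * (L / 2) ≤
        (((Ico u (u + L)).filter (fun h : ℕ =>
          Even h ∧ κ * (x / (Real.log x) ^ 2) ≤ (primePairs (3 * x) h : ℝ))).card : ℝ)) ∨
      (1 - ε) * (L / 40) ≤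
        (((Icc 1 (L / 20)).filter (fun h : ℕ =>
          Even h ∧ κ * (x / (Real.log x) ^ 2) ≤ (primePairs (3 * x) h : ℝ))).card : ℝ) :=
  fun ε lam hε hlam => Pool.Agent.N646.RG.differences_final ε lam hε hlam

end Pool.Agent.Results.MP_70e905_nt.DifferencesInEveryWindow
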