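import Mathlib
import Pool.Agent.N419.GP.Fin

/-!
# A dichotomy between differences of primes and sums of primes, at every scale

Let `N` be large and let `X` be the length of a window, `C ≤ X ≤ N / C`. Either the even numbers `d ≤ X`
which are the difference of two primes in fewer than `N ^ (1 - η)` ways (with the smaller prime at most `N`)
have a power saving in EVERY interval `(u, u + H]` contained in `(0, X]`, or a positive proportion of the
integers `m` at distance at most `C * X` from `N` have at least `N ^ (1 - η)` representations `m = p + b * q`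
by primes, for every `b ≤ A`, and the same holds for the constants `c` of the equations `a * p - b * q = c`,
in every window. Qualitatively: either the even numbers that are not infinitely often a difference of two
primes have a power saving in every interval, or the sums `p + b * q` of primes have bounded gaps for every
`b ≥ 1` (`b = 1`: Goldbach's problem up to a bounded error).
-/

set_option autoImplicit false

namespace Pool.Agent.Results.MP_70e905_nt.GoldbachGapsOrDifferences

open Finset Filter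

/-- the number of primes `p ≤ N` for which `p + d` is a prime -/
def differenceCount (N d : ℕ) : ℕ :=
  ((Icc 1 N).filter (fun p : ℕ => p.Prime ∧ (p + d).Prime)).card

/-- the number of primes `q ≤ N` for which `m - b * q` is a (positive) prime -/
def sumCount (N b m : ℕ) : ℕ :=
  ((Icc 1 N).filter (fun q : ℕ => q.Prime ∧ (m - b * q).Prime)).card

open Classical in
/-- the number of primes `q ≤ N` for which there is a prime `p` with `a * p - b * q = c` -/
noncomputable def lineCount (N : ℕ) (a b c : ℤ) : ℕ :=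
  ((Icc 1 N).filter (fun q : ℕ => q.Prime ∧ ∃ p : ℕ, p.Prime ∧ a * p - b * q = c)).card

open Classical in
theorem result : ∃ δ : ℝ, 0 < δ ∧
    (∀ A : ℕ, ∃ C : ℕ, ∀ η : ℝ, 0 < η → ∀ᶠ N : ℕ in atTop, ∀ X : ℕ, C ≤ X → C * X ≤ N →
      (∀ u H : ℕ, 1 ≤ H → u + H ≤ X →
        (((Ioc u (u + H)).filter (fun d : ℕ => Even d ∧
          (differenceCount N d : ℝ) < (N : ℝ) ^ (1 - η))).card : ℝ) ≤ C * (H : ℝ) ^ (1 - δ)) ∨
      ((∀ b : ℕ, 1 ≤ b → b ≤ A → X ≤ C * ((Icc (N - C * X) (N + C * X)).filter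
          (fun m : ℕ => (N : ℝ) ^ (1 - η) ≤ sumCount N b m)).card) ∧
        ∀ a b : ℕ, 1 ≤ a → a ≤ A → 1 ≤ b → b ≤ A → a ≠ b → ∀ γ : ℤ, 100 * A * |γ| ≤ N →
          X ≤ C * ((Icc (γ - C * X) (γ + C * X)).filter
            (fun c : ℤ => (N : ℝ) ^ (1 - η) ≤ lineCount N a b c)).card)) ∧
    ((∃ C : ℝ, ∀ u H : ℕ, 1 ≤ H →
        (((Ioc u (u + H)).filter (fun d : ℕ => Even d ∧
          {p : ℕ | p.Prime ∧ (p + d).Prime}.Finite)).card : ℝ) ≤ C * (H : ℝ) ^ (1 - δ)) ∨
      ((∀ b : ℕ, 1 ≤ b → ∃ C : ℕ, ∀ᶠ n : ℕ in atTop, ∃ p q : ℕ, p.Prime ∧ q.Prime ∧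
          p + b * q ≤ n + C ∧ n ≤ p + b * q + C) ∧
        ∀ a b : ℕ, 1 ≤ a → 1 ≤ b → a ≠ b → ∃ C : ℕ, ∀ γ : ℤ, ∃ c : ℤ, |c - γ| ≤ C ∧
          {q : ℕ | q.Prime ∧ ∃ p : ℕ, p.Prime ∧ (a : ℤ) * p - b * q = c}.Infinite)) := by
  obtain ⟨δ, hδ, h⟩ := Pool.Agent.N419.GP.main Pool.Agent.N419.GP.lamHyp
  refine ⟨δ, hδ, fun A => ?_, Pool.Agent.N419.GP.qual δ h⟩
  obtain ⟨C, -, hC⟩ := h A
  exact ⟨C, hC⟩

end Pool.Agent.Results.MP_70e905_nt.GoldbachGapsOrDifferences
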