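import Pool.Agent.N733.TD.F

/-!
# Differences of primes: the values of multiplicative functions

For almost all positive integers `m` the even integers `φ(m) + a`, `a ≠ 0` even, are differences of two primes, and the
number of pairs of primes `p, p + φ(m) + a` in windows is the one predicted by Hardy and Littlewood. The same holds for
`f(m) + a`, where `f` is any positive multiplicative function of at most polynomial growth with `f(p) = p + c` for all
large primes `p` (for instance the sum of the divisors), if `f(m) + a` is even. The values of such functions are taken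
with large multiplicities, so this does not follow from the bounds for the number of even integers up to `x` which are
not differences of two primes: the number of `m ≤ x` with `φ(m) = v` can be larger than `x^(1/2)`.

Proof. Write `m = k u` where `k` is composed of the primes `≤ x^δ`. For most `m` one has `k ≤ x^η`, and `u` is a product
of a bounded number of different primes. So `f(m) + a = f(k) f(u) + a` lies in the residue class of `a` modulo
`q = f(k)`, which is small compared to `x`, and the theorem on prime pairs with a difference in a residue class of an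
arbitrary modulus `q ≤ x^(1/2-ρ)` (`Y883/GJ`, starting files) can be applied to every `k`, on a grid of lengths. A value
`v = f(u)` is taken at most `(1 + τ(v))^J` times, which is harmless on average, because of the power of the logarithm in
that theorem.
-/

set_option autoImplicit false

namespace Pool.Agent.Results.MP_70e905_nt.TotientDifferences

open Finset Filter Topology
open Pool.Agent.H560R3.GB (sing)

/-- A positive multiplicative function of at most polynomial growth with `f p = p + c` for all large primes `p`. -/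
structure Shifted (f : ℕ → ℕ) (c : ℤ) : Prop where
  mul : ∀ m n : ℕ, Nat.Coprime m n → f (m * n) = f m * f n
  pos : ∀ m : ℕ, 1 ≤ m → 1 ≤ f m
  growth : ∃ C D : ℕ, ∀ m : ℕ, 1 ≤ m → f m ≤ C * m ^ D
  prime : ∃ P : ℕ, ∀ p : ℕ, P ≤ p → p.Prime → (f p : ℤ) = p + c

/-- The number of primes `p` with `y₁ < p ≤ y₂` such that `p + h` is a prime. -/
def count (h y₁ y₂ : ℕ) : ℕ := ((Ioc y₁ y₂).filter (fun p => p.Prime ∧ (p + h).Prime)).card

/-- In every window `(y₁, y₂] ⊆ (0, h (log h)^W]` of a length of at least `h / (log h)^W` the number of primes `p` such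
that `p + h` is a prime is `sing h * (y₂ - y₁) / (log h)²` with a relative error of at most `ε`. -/
def Formula (ε : ℝ) (W h : ℕ) : Prop :=
  ∀ y₁ y₂ : ℕ, y₁ < y₂ → (y₂ : ℝ) ≤ h * Real.log h ^ W → (h : ℝ) / Real.log h ^ W ≤ (y₂ : ℝ) - y₁ →
    |(count h y₁ y₂ : ℝ) - sing h * ((y₂ : ℝ) - y₁) / Real.log h ^ 2| ≤
      ε * (sing h * ((y₂ : ℝ) - y₁) / Real.log h ^ 2)

open Classical in
/-- The proportion of the positive integers `m ≤ N` without the property `P` tends to `0`. -/
def AlmostAll (P : ℕ → Prop) : Prop :=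
  Tendsto (fun N : ℕ => (((Icc 1 N).filter (fun m => ¬ P m)).card : ℝ) / N) atTop (𝓝 0)

theorem sm_of {f : ℕ → ℕ} {c : ℤ} (hf : Shifted f c) : Pool.Agent.N733.TG.SM f c :=
  ⟨hf.mul, hf.pos, hf.growth, hf.prime⟩

open Classical in
theorem almostAll_iff (P : ℕ → Prop) : AlmostAll P ↔ ∀ ε : ℝ, 0 < ε → ∃ N₀ : ℕ, ∀ N : ℕ, N₀ ≤ N →
    (((Icc 1 N).filter (fun m => ¬ P m)).card : ℝ) ≤ ε * N := by
  unfold AlmostAll
  rw [Metric.tendsto_atTop]
  constructor
  · intro h ε hε
    obtain ⟨N₀, hN₀⟩ := h ε hε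
    refine ⟨max N₀ 1, fun N hN => ?_⟩
    have h1 := hN₀ N (le_trans (le_max_left _ _) hN)
    have h2 : (0 : ℝ) < N := by exact_mod_cast (le_trans (le_max_right N₀ 1) hN)
    rw [Real.dist_eq, sub_zero, abs_of_nonneg (by positivity), div_lt_iff₀ h2] at h1
    exact h1.le
  · intro h ε hε
    obtain ⟨N₀, hN₀⟩ := h (ε / 2) (by positivity)
    refine ⟨max N₀ 1, fun N hN => ?_⟩
    have h1 := hN₀ N (le_trans (le_max_left _ _) hN)
    have h2 : (0 : ℝ) < N := by exact_mod_cast (le_trans (le_max_right N₀ 1) hN)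
    rw [Real.dist_eq, sub_zero, abs_of_nonneg (by positivity), div_lt_iff₀ h2]
    nlinarith

theorem almostAll_and {P Q R : ℕ → Prop} (hP : AlmostAll P) (hQ : AlmostAll Q) (m₀ : ℕ)
    (h : ∀ m, m₀ ≤ m → P m → Q m → R m) : AlmostAll R := by
  classical
  rw [almostAll_iff] at *
  intro ε hε
  obtain ⟨N₁, h₁⟩ := hP (ε / 3) (by positivity)
  obtain ⟨N₂, h₂⟩ := hQ (ε / 3) (by positivity)
  obtain ⟨N₃, h₃⟩ := exists_nat_gt (3 * m₀ / ε)
  refine ⟨max N₁ (max N₂ N₃), fun N hN => ?_⟩
  have b1 := h₁ N (le_trans (le_max_left _ _) hN)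
  have b2 := h₂ N (le_trans (le_trans (le_max_left _ _) (le_max_right _ _)) hN)
  have b3 : (N₃ : ℝ) ≤ N := by exact_mod_cast (le_trans (le_trans (le_max_right _ _) (le_max_right _ _)) hN)
  have b4 : (m₀ : ℝ) ≤ ε / 3 * N := by
    have : 3 * m₀ / ε ≤ N := by linarith
    rw [div_le_iff₀ hε] at this
    linarith
  have hsub : (Icc 1 N).filter (fun m => ¬ R m) ⊆
      ((Icc 1 N).filter (fun m => ¬ P m) ∪ (Icc 1 N).filter (fun m => ¬ Q m)) ∪ Icc 1 m₀ := by
    intro m hm
    rw [mem_filter, mem_Icc] at hm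
    rw [mem_union, mem_union, mem_filter, mem_filter, mem_Icc, mem_Icc]
    by_cases h1 : P m
    · by_cases h2 : Q m
      · by_cases h3 : m₀ ≤ m
        · exact absurd (h m h3 h1 h2) hm.2
        · right
          omega
      · left; right
        exact ⟨hm.1, h2⟩
    · left; left
      exact ⟨hm.1, h1⟩
  have hc : ((Icc 1 N).filter (fun m => ¬ R m)).card ≤
      (((Icc 1 N).filter (fun m => ¬ P m)).card + ((Icc 1 N).filter (fun m => ¬ Q m)).card) + m₀ := by
    refine (card_le_card hsub).trans ((card_union_le _ _).trans ?_)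
    have := card_union_le ((Icc 1 N).filter (fun m => ¬ P m)) ((Icc 1 N).filter (fun m => ¬ Q m))
    rw [Nat.card_Icc]
    omega
  have hc' : (((Icc 1 N).filter (fun m => ¬ R m)).card : ℝ) ≤
      ((((Icc 1 N).filter (fun m => ¬ P m)).card : ℝ) + ((Icc 1 N).filter (fun m => ¬ Q m)).card) + m₀ := by
    exact_mod_cast hc
  linarith

theorem card_mono' {N : ℕ} {P Q : ℕ → Prop} {dP : DecidablePred P} {dQ : DecidablePred Q} (h : ∀ m, P m → Q m) :
    (@Finset.filter _ P dP (Icc 1 N)).card ≤ (@Finset.filter _ Q dQ (Icc 1 N)).card :=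
  card_le_card (fun m hm => Finset.mem_filter.2 ⟨(Finset.mem_filter.1 hm).1, h m (Finset.mem_filter.1 hm).2⟩)

theorem general (f : ℕ → ℕ) (c a : ℤ) (ε : ℝ) (W : ℕ) (hf : Shifted f c) (ha : a ≠ 0) (hε : 0 < ε) :
    AlmostAll (fun m => 0 < (f m : ℤ) + a ∧ (Even ((f m : ℤ) + a) → Formula ε W ((f m : ℤ) + a).toNat)) := by
  classical
  rw [almostAll_iff]
  intro δ hδ
  obtain ⟨N₀, h⟩ := Pool.Agent.N733.TD.diff_dens (sm_of hf) a ha ε hε W δ hδ
  refine ⟨N₀, fun N hN => le_trans (Nat.cast_le.2 (card_mono' ?_)) (h N hN)⟩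
  intro m hm h1
  refine hm ⟨h1.1, fun h2 => h1.2 ?_⟩
  rw [even_iff_two_dvd] at h2
  have h3 : ((((f m : ℤ) + a).toNat : ℕ) : ℤ) = (f m : ℤ) + a := Int.toNat_of_nonneg h1.1.le
  have h4 : (2 : ℤ) ∣ ((((f m : ℤ) + a).toNat : ℕ) : ℤ) := by rw [h3]; exact h2
  exact_mod_cast h4

theorem shifted_totient : Shifted Nat.totient (-1) where
  mul := fun m n h => Nat.totient_mul h
  pos := fun m hm => Nat.totient_pos.2 hm
  growth := ⟨1, 1, fun m _ => by rw [one_mul, pow_one]; exact Nat.totient_le m⟩
  prime := ⟨0, fun p _ hp => by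
    rw [Nat.totient_prime hp]
    have := hp.pos
    omega⟩

theorem shifted_sigma : Shifted (fun m => ∑ d ∈ m.divisors, d) 1 where
  mul := fun m n h => by
    have := ArithmeticFunction.isMultiplicative_sigma (k := 1).map_mul_of_coprime h
    simpa [ArithmeticFunction.sigma_one_apply] using this
  pos := fun m hm => by
    calc 1 ≤ m := hm
      _ ≤ ∑ d ∈ m.divisors, d := single_le_sum (f := fun d => d) (fun _ _ => Nat.zero_le _)
        (Nat.mem_divisors_self m (by omega))
  growth := ⟨1, 2, fun m hm => by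
    calc ∑ d ∈ m.divisors, d ≤ ∑ d ∈ m.divisors, m := sum_le_sum (fun d hd => Nat.divisor_le hd)
      _ = m.divisors.card * m := by rw [sum_const, smul_eq_mul]
      _ ≤ m * m := Nat.mul_le_mul_right _ (Nat.card_divisors_le_self m)
      _ = 1 * m ^ 2 := by ring⟩
  prime := ⟨0, fun p _ hp => by
    rw [Nat.Prime.sum_divisors hp]
    push_cast
    ring⟩

/-- from the formula to a pair of primes in every window -/
theorem pair_of {h W y₁ y₂ : ℕ} (hh : 2 ≤ h) (hF : Formula (1 / 2) W h) (hy : y₁ < y₂)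
    (hy2 : (y₂ : ℝ) ≤ h * Real.log h ^ W) (hw : (h : ℝ) / Real.log h ^ W ≤ (y₂ : ℝ) - y₁) :
    ∃ p q : ℕ, p.Prime ∧ q.Prime ∧ p - q = h ∧ y₁ < q ∧ q ≤ y₂ := by
  have hhr : (2 : ℝ) ≤ h := by exact_mod_cast hh
  have hl : 0 < Real.log h := Real.log_pos (by linarith)
  have h1 := hF y₁ y₂ hy hy2 hw
  have hs := Pool.Agent.W93.GB.one_le_sing h
  have hyr : (y₁ : ℝ) < y₂ := by exact_mod_cast hy
  have h2 : 0 < sing h * ((y₂ : ℝ) - y₁) / Real.log h ^ 2 :=
    div_pos (mul_pos (by linarith) (by linarith)) (by positivity)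
  have h3 : (0 : ℝ) < count h y₁ y₂ := by
    have := (abs_le.1 h1).1
    linarith
  have h4 : 0 < count h y₁ y₂ := by exact_mod_cast h3
  unfold count at h4
  rw [card_pos] at h4
  obtain ⟨q, hq⟩ := h4
  rw [mem_filter, mem_Ioc] at hq
  exact ⟨q + h, q, hq.2.2, hq.2.1, by omega, hq.1.1, hq.1.2⟩

/-- **Values of multiplicative functions as differences of primes.** (1) Let `f` be a positive multiplicative function of
at most polynomial growth with `f p = p + c` for all large primes `p`, and let `a ≠ 0`. For almost all `m` the integer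
`h = f m + a` is positive and, if it is even, satisfies the formula of Hardy and Littlewood for the number of pairs of
primes `p, p + h` in all windows up to `h (log h)^W` of a length of at least `h / (log h)^W`. (2) Euler's function and
the sum of the divisors are examples. (3) For every even `a ≠ 0` and every `W`, almost all the integers
`h = φ(m) + a` are differences `h = p - q` of two primes, where `q` can be chosen in every window
`(y₁, y₂] ⊆ (0, h (log h)^W]` of a length of at least `h / (log h)^W`. -/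
theorem result :
    (∀ (f : ℕ → ℕ) (c a : ℤ) (ε : ℝ) (W : ℕ), Shifted f c → a ≠ 0 → 0 < ε →
      AlmostAll (fun m => 0 < (f m : ℤ) + a ∧ (Even ((f m : ℤ) + a) → Formula ε W ((f m : ℤ) + a).toNat))) ∧
    (Shifted Nat.totient (-1) ∧ Shifted (fun m => ∑ d ∈ m.divisors, d) 1) ∧
    ∀ (a : ℤ) (W : ℕ), Even a → a ≠ 0 → AlmostAll (fun m => ∃ h : ℕ, (h : ℤ) = Nat.totient m + a ∧ 0 < h ∧
      ∀ y₁ y₂ : ℕ, y₁ < y₂ → (y₂ : ℝ) ≤ h * Real.log h ^ W → (h : ℝ) / Real.log h ^ W ≤ (y₂ : ℝ) - y₁ →
        ∃ p q : ℕ, p.Prime ∧ q.Prime ∧ p - q = h ∧ y₁ < q ∧ q ≤ y₂) := by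
  refine ⟨general, ⟨shifted_totient, shifted_sigma⟩, fun a W hae ha => ?_⟩
  have h1 := general Nat.totient (-1) a (1 / 2) W shifted_totient ha (by norm_num)
  refine almostAll_and h1 h1 3 (fun m hm h4 _ => ?_)
  have he : Even ((Nat.totient m : ℤ) + a) := by
    obtain ⟨t, ht⟩ := Nat.totient_even (n := m) (by omega)
    obtain ⟨b, hb⟩ := hae
    exact ⟨t + b, by rw [ht, hb]; push_cast; ring⟩
  have h6 := h4.2 he
  obtain ⟨h, hh⟩ : ∃ h : ℕ, h = ((Nat.totient m : ℤ) + a).toNat := ⟨_, rfl⟩
  rw [← hh] at h6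
  have hz : (h : ℤ) = Nat.totient m + a := by rw [hh]; exact Int.toNat_of_nonneg h4.1.le
  have hpos : 0 < h := by omega
  have h2h : 2 ≤ h := by
    obtain ⟨b, hb⟩ := he
    omega
  exact ⟨h, hz, hpos, fun y₁ y₂ e1 e2 e3 => pair_of h2h h6 e1 e2 e3⟩

end Pool.Agent.Results.MP_70e905_nt.TotientDifferences
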