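import Pool.Agent.N576.UD.Main

set_option autoImplicit false

open Polynomial

namespace Pool.Agent.Results.MP_70e905_nt.UniformDifferences

/-- a nonzero integer with at most `R` prime factors (with multiplicity), all larger than `y` -/
def AlmostPrime (y : ℝ) (R : ℕ) (m : ℤ) : Prop :=
  m ≠ 0 ∧ (∀ p : ℕ, p.Prime → (p : ℤ) ∣ m → y < p) ∧ ArithmeticFunction.cardFactors m.natAbs ≤ R

/-- completely additive functions on the positive integers -/
def CompletelyAdditive {Γ : Type} [AddCommGroup Γ] (F : ℕ → Γ) : Prop :=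
  ∀ r s : ℕ, r ≠ 0 → s ≠ 0 → F (r * s) = F r + F s

/-- the number of the integers `1 ≤ y ≤ X` such that `y` and `y + h` have at most `R` prime factors,
all larger than `X ^ δ`, and `P y` holds -/
noncomputable def numPairs (h : ℕ) (δ : ℝ) (R X : ℕ) (P : ℕ → Prop) : ℕ :=
  {y : ℕ | 1 ≤ y ∧ y ≤ X ∧ AlmostPrime ((X : ℝ) ^ δ) R y ∧ AlmostPrime ((X : ℝ) ^ δ) R (y + h : ℕ) ∧
    P y}.ncard

/-- the number of the integers `1 ≤ n ≤ X` such that `a₁ n + b₁` and `a₂ n + b₂` are positive, these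
two integers and all the `g_j n` have at most `R` prime factors, all larger than `X ^ δ`, and
`P (a₁ n + b₁) (a₂ n + b₂)` holds -/
noncomputable def numForms (a₁ a₂ : ℕ) (b₁ b₂ : ℤ) {s : ℕ} (g : Fin s → ℤ[X]) (δ : ℝ) (R X : ℕ)
    (P : ℕ → ℕ → Prop) : ℕ :=
  {n : ℕ | 1 ≤ n ∧ n ≤ X ∧ 0 < (a₁ : ℤ) * n + b₁ ∧ 0 < (a₂ : ℤ) * n + b₂ ∧
      AlmostPrime ((X : ℝ) ^ δ) R ((a₁ : ℤ) * n + b₁) ∧
      AlmostPrime ((X : ℝ) ^ δ) R ((a₂ : ℤ) * n + b₂) ∧
      (∀ j, AlmostPrime ((X : ℝ) ^ δ) R ((g j).eval (n : ℤ))) ∧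
      P ((a₁ : ℤ) * n + b₁).natAbs ((a₂ : ℤ) * n + b₂).natAbs}.ncard

/-- Let `ε > 0`.

(1) Let `k ≥ 1`. There are `R`, `X₀`, `δ > 0` such that for all `X ≥ X₀`, for EVERY even integer
`0 ≤ h ≤ X ^ (1 - ε)` and for EVERY completely additive function `f` with values in `ℤ/k` there is a
class `h₀` modulo `k` such that for every class `t` modulo `k`, at least `X ^ (1 - ε)` integers
`y ≤ X` are such that `y` and `y + h` have at most `R` prime factors, all larger than `X ^ δ`, and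
`f (y + h) - f y + Ω(y) = t` and `Ω(y + h) - Ω(y) ≡ h₀ (mod k)`.

(2) The general form: let `Γ` be a finite abelian group, `γ ∈ Γ`, let `q₀, a₁, a₂ ≥ 1` and `s, D, B`
be natural numbers. There are `R`, `X₀`, `δ > 0` such that for all `X ≥ X₀`, all integers `b₁, b₂` of
absolute value at most `X ^ (1 - ε)` and all the integer polynomials `g_1, ..., g_s` of degree at most
`D` with coefficients of absolute value at most `X ^ B` such that for each prime `p` some integer `n`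
makes `a₁ n + b₁`, `a₂ n + b₂` and all the `g_j n` prime to `p`, and for all completely additive
functions `F₁`, `F₂` with values in `Γ` such that `F₁ p + F₂ p = γ` for the primes
`X ^ δ < p ≤ X ^ ε`, `p ≡ 1 (mod q₀)` (and arbitrary at the other primes), the values
`F₁ (a₁ n + b₁) + F₂ (a₂ n + b₂)` contain a whole coset `h + ⟨γ⟩`, each element of it being taken for
at least `X ^ (1 - ε)` integers `n ≤ X` for which `a₁ n + b₁` and `a₂ n + b₂` are positive and these
two integers and all the `g_j n` have at most `R` prime factors, all larger than `X ^ δ`. -/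
theorem result (ε : ℝ) (hε : 0 < ε) :
    (∀ k : ℕ, 1 ≤ k → ∃ R X₀ : ℕ, ∃ δ : ℝ, 0 < δ ∧ ∀ X : ℕ, X₀ ≤ X → ∀ h : ℕ, Even h →
      (h : ℝ) ≤ (X : ℝ) ^ (1 - ε) → ∀ f : ℕ → ZMod k, CompletelyAdditive f →
      ∃ h₀ : ZMod k, ∀ t : ZMod k, (X : ℝ) ^ (1 - ε) ≤ (numPairs h δ R X (fun y =>
        f (y + h) - f y + (ArithmeticFunction.cardFactors y : ZMod k) = t ∧
        (ArithmeticFunction.cardFactors (y + h) : ZMod k) -
          (ArithmeticFunction.cardFactors y : ZMod k) = h₀) : ℝ)) ∧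
    (∀ (Γ : Type) [AddCommGroup Γ] [Finite Γ] (γ : Γ) (q₀ s D B a₁ a₂ : ℕ), 0 < q₀ → 0 < a₁ →
      0 < a₂ → ∃ R X₀ : ℕ, ∃ δ : ℝ, 0 < δ ∧ ∀ X : ℕ, X₀ ≤ X →
      ∀ (b₁ b₂ : ℤ) (g : Fin s → ℤ[X]), (|b₁| : ℝ) ≤ (X : ℝ) ^ (1 - ε) →
      (|b₂| : ℝ) ≤ (X : ℝ) ^ (1 - ε) →
      (∀ j, (g j).natDegree ≤ D ∧ ∀ i, |(g j).coeff i| ≤ (X : ℤ) ^ B) →
      (∀ p : ℕ, p.Prime → ∃ n : ℤ, ¬ (p : ℤ) ∣ a₁ * n + b₁ ∧ ¬ (p : ℤ) ∣ a₂ * n + b₂ ∧
        ∀ j, ¬ (p : ℤ) ∣ (g j).eval n) →
      ∀ F₁ F₂ : ℕ → Γ, CompletelyAdditive F₁ → CompletelyAdditive F₂ →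
      (∀ p : ℕ, p.Prime → p % q₀ = 1 % q₀ → (X : ℝ) ^ δ < p → (p : ℝ) ≤ (X : ℝ) ^ ε →
        F₁ p + F₂ p = γ) →
      ∃ h : Γ, ∀ j : ℕ, (X : ℝ) ^ (1 - ε) ≤ (numForms a₁ a₂ b₁ b₂ g δ R X (fun m₁ m₂ =>
        F₁ m₁ + F₂ m₂ = h + j • γ) : ℝ)) := by
  classical
  refine ⟨?_, ?_⟩
  · intro k hk
    have : NeZero k := ⟨by omega⟩
    obtain ⟨R, X₀, δ, hδ, H⟩ := Pool.Agent.N576.UD.main (ZMod k × ZMod k) ((1, 0) : ZMod k × ZMod k)
      1 one_pos 0 0 0 1 1 one_pos one_pos ε hε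
    refine ⟨R, X₀, δ, hδ, fun X hX h hh hhX f hf => ?_⟩
    have hΩ : ∀ r s : ℕ, r ≠ 0 → s ≠ 0 → ((ArithmeticFunction.cardFactors (r * s) : ℕ) : ZMod k) =
        (ArithmeticFunction.cardFactors r : ZMod k) + (ArithmeticFunction.cardFactors s : ZMod k) := by
      intro r s hr hs
      rw [ArithmeticFunction.cardFactors_mul hr hs]
      push_cast
      rfl
    have hf' : ∀ r s : ℕ, r ≠ 0 → s ≠ 0 → f (r * s) = f r + f s := hf
    have hadd1 : Pool.Agent.N576.UD.Additive (fun m : ℕ =>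
        ((f m, (ArithmeticFunction.cardFactors m : ZMod k)) : ZMod k × ZMod k)) := by
      intro r s hr hs
      simp only [Prod.mk_add_mk, Prod.mk.injEq]
      exact ⟨hf r s hr hs, hΩ r s hr hs⟩
    have hadd2 : Pool.Agent.N576.UD.Additive (fun m : ℕ =>
        ((-f m + (ArithmeticFunction.cardFactors m : ZMod k),
          -(ArithmeticFunction.cardFactors m : ZMod k)) : ZMod k × ZMod k)) := by
      intro r s hr hs
      simp only [Prod.mk_add_mk, Prod.mk.injEq]
      rw [hf' r s hr hs, hΩ r s hr hs]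
      constructor <;> ring
    obtain ⟨c, hc⟩ := H X hX (h : ℤ) 0 (fun i => i.elim0) (by
        push_cast
        rw [abs_of_nonneg (by positivity : (0 : ℝ) ≤ (h : ℝ))]
        exact hhX) (by simp; positivity) (fun i => i.elim0) (by
        intro p hp
        obtain ⟨e, he⟩ := hh
        rcases hp.eq_two_or_odd' with rfl | hodd
        · refine ⟨1, ?_, ?_, fun i => i.elim0⟩
          · rw [he]; push_cast; omega
          · norm_num
        · -- odd primes
          have hp3 : 3 ≤ p := by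
            have := hp.two_le
            obtain ⟨r, hr⟩ := hodd
            omega
          by_cases h1 : (p : ℤ) ∣ 1 + h
          · refine ⟨2, ?_, ?_, fun i => i.elim0⟩
            · intro h2
              have h3 : (p : ℤ) ∣ 1 := by
                have := dvd_sub h2 h1
                have e1 : ((1 : ℕ) : ℤ) * 2 + (h : ℤ) - (1 + (h : ℤ)) = 1 := by push_cast; ring
                rwa [e1] at this
              have := Int.le_of_dvd one_pos h3
              omega
            · intro h2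
              have := Int.le_of_dvd (by norm_num) h2
              push_cast at this
              omega
          · refine ⟨1, ?_, ?_, fun i => i.elim0⟩
            · intro h2
              apply h1
              have e1 : ((1 : ℕ) : ℤ) * 1 + (h : ℤ) = 1 + (h : ℤ) := by push_cast; ring
              rwa [e1] at h2
            · intro h2
              have := Int.le_of_dvd (by norm_num) h2
              push_cast at this
              omega) _ _ hadd1 hadd2 (by
        intro p hp _ _ _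
        simp only [Prod.mk_add_mk, Prod.mk.injEq]
        constructor
        · rw [ArithmeticFunction.cardFactors_apply_prime hp]
          push_cast
          ring
        · ring)
    refine ⟨c.2, fun t => ?_⟩
    obtain ⟨j, hj⟩ := ZMod.natCast_zmod_surjective (t - c.1)
    refine (hc j).trans (Nat.cast_le.2 ?_)
    refine Set.ncard_le_ncard ?_ ((Set.finite_Iic X).subset fun n hn => hn.2.1)
    rintro n ⟨h1, h2, h3, h4, h5, h6, -, h8⟩
    have e1 : ((1 : ℕ) : ℤ) * (n : ℤ) + (h : ℤ) = ((n + h : ℕ) : ℤ) := by push_cast; ring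
    have e2 : ((1 : ℕ) : ℤ) * (n : ℤ) + 0 = (n : ℤ) := by push_cast; ring
    rw [e1] at h5
    rw [e2] at h6
    rw [e1, e2, Int.natAbs_natCast, Int.natAbs_natCast] at h8
    simp only [Prod.ext_iff, Prod.fst_add, Prod.snd_add, Prod.smul_mk, smul_zero, add_zero] at h8
    obtain ⟨g1, g2⟩ := h8
    refine ⟨h1, h2, h6, h5, ?_, ?_⟩
    · have g3 : c.1 + j • (1 : ZMod k) = t := by
        rw [nsmul_eq_mul, mul_one, hj]; ring
      rw [← g3, ← g1]
      ring
    · rw [← g2]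
      ring
  · intro Γ _ _ γ q₀ s D B a₁ a₂ hq₀ ha₁ ha₂
    obtain ⟨R, X₀, δ, hδ, H⟩ := Pool.Agent.N576.UD.main Γ γ q₀ hq₀ s D B a₁ a₂ ha₁ ha₂ ε hε
    exact ⟨R, X₀, δ, hδ, fun X hX b₁ b₂ g hb₁ hb₂ hg hadm F₁ F₂ hF₁ hF₂ hF =>
      H X hX b₁ b₂ g hb₁ hb₂ hg hadm F₁ F₂ hF₁ hF₂ hF⟩

end Pool.Agent.Results.MP_70e905_nt.UniformDifferences
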